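import Pool.Agent.L7h17.OC.Stm

/-! Project OC (helper17, MP_b7f146_ag): parts NSP, SIM8, SIM6. -/

set_option autoImplicit false

open MvPolynomial

namespace Pool.Agent.L7h60.OC

open Pool.Agent.L7h17.OC

/-- the chain rule for polynomials -/
theorem chain_rule (F : MvPolynomial (Fin 3) ℝ) {γ : ℝ → Fin 3 → ℝ} {γ' : Fin 3 → ℝ} {x : ℝ}
    (h : ∀ i, HasDerivAt (fun y => γ y i) (γ' i) x) :
    HasDerivAt (fun y => eval (γ y) F) (∑ i, eval (γ x) (pderiv i F) * γ' i) x := by
  induction F using MvPolynomial.induction_on with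
  | C a =>
    simp only [eval_C, pderiv_C, map_zero, zero_mul, Finset.sum_const_zero]
    exact hasDerivAt_const x a
  | add p q hp hq =>
    have h1 := hp.add hq
    have e : (∑ i, eval (γ x) (pderiv i (p + q)) * γ' i) =
        (∑ i, eval (γ x) (pderiv i p) * γ' i) + ∑ i, eval (γ x) (pderiv i q) * γ' i := by
      rw [← Finset.sum_add_distrib]
      apply Finset.sum_congr rfl
      intro i _
      rw [map_add, map_add, add_mul]
    rw [e]
    refine h1.congr_of_eventuallyEq ?_
    filter_upwards with y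
    simp only [Pi.add_apply, map_add]
  | mul_X p k hp =>
    have h1 := hp.mul (h k)
    have e : (∑ i, eval (γ x) (pderiv i (p * X k)) * γ' i) =
        (∑ i, eval (γ x) (pderiv i p) * γ' i) * γ x k + eval (γ x) p * γ' k := by
      have e1 : ∀ i ∈ (Finset.univ : Finset (Fin 3)), eval (γ x) (pderiv i (p * X k)) * γ' i =
          eval (γ x) (pderiv i p) * γ' i * γ x k +
            (if i = k then eval (γ x) p * γ' k else 0) := by
        intro i _
        rw [pderiv_mul, map_add, map_mul, map_mul, eval_X]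
        by_cases hik : i = k
        · subst hik
          rw [pderiv_X_self, if_pos rfl, map_one]
          ring
        · rw [pderiv_X_of_ne (fun h => hik h.symm), if_neg hik, map_zero]
          ring
      rw [Finset.sum_congr rfl e1, Finset.sum_add_distrib, Finset.sum_mul, Finset.sum_ite_eq']
      simp
    rw [e]
    refine h1.congr_of_eventuallyEq ?_
    filter_upwards with y
    simp only [Pi.mul_apply, map_mul, eval_X]

theorem s_NSP : S_NSP := by
  intro F hF hns θ τ h0 h1 h2
  set v : Fin 3 → ℝ := ![Real.cos θ, Real.sin θ, τ] with hv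
  have hcs := Real.sin_sq_add_cos_sq θ
  -- the derivatives
  have d1 : HasDerivAt (fun x : ℝ => eval ![Real.cos x, Real.sin x, τ] F)
      (∑ i, eval v (pderiv i F) * (![-Real.sin θ, Real.cos θ, 0] : Fin 3 → ℝ) i) θ := by
    refine chain_rule F (γ := fun x => ![Real.cos x, Real.sin x, τ]) ?_
    intro i
    fin_cases i
    · exact Real.hasDerivAt_cos θ
    · exact Real.hasDerivAt_sin θ
    · exact hasDerivAt_const θ τ
  have d2 : HasDerivAt (fun x : ℝ => eval ![Real.cos θ, Real.sin θ, x] F)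
      (∑ i, eval v (pderiv i F) * (![0, 0, 1] : Fin 3 → ℝ) i) τ := by
    refine chain_rule F (γ := fun x => ![Real.cos θ, Real.sin θ, x]) ?_
    intro i
    fin_cases i
    · exact hasDerivAt_const τ _
    · exact hasDerivAt_const τ _
    · exact hasDerivAt_id τ
  have e1 := d1.unique h1
  have e2 := d2.unique h2
  have hE := congrArg (eval v) hF.sum_X_mul_pderiv
  rw [map_nsmul, h0, smul_zero, Fin.sum_univ_three] at hE
  simp only [map_add, map_mul, eval_X] at hE
  simp only [Fin.sum_univ_three, Matrix.cons_val_zero, Matrix.cons_val_one, Matrix.cons_val_two,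
    Matrix.tail_cons, Matrix.head_cons] at e1 e2
  have hv0 : v 0 = Real.cos θ := rfl
  have hv1 : v 1 = Real.sin θ := rfl
  have hv2 : v 2 = τ := rfl
  rw [hv0, hv1, hv2] at hE
  have g2 : eval v (pderiv 2 F) = 0 := by linarith
  rw [g2] at hE e1
  have g0 : eval v (pderiv 0 F) = 0 := by
    have : eval v (pderiv 0 F) = eval v (pderiv 0 F) * (Real.sin θ ^ 2 + Real.cos θ ^ 2) := by
      rw [hcs, mul_one]
    rw [this]
    linear_combination Real.cos θ * hE - Real.sin θ * e1
  have g1 : eval v (pderiv 1 F) = 0 := by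
    have : eval v (pderiv 1 F) = eval v (pderiv 1 F) * (Real.sin θ ^ 2 + Real.cos θ ^ 2) := by
      rw [hcs, mul_one]
    rw [this]
    linear_combination Real.sin θ * hE + Real.cos θ * e1
  have hae : ∀ P : MvPolynomial (Fin 3) ℝ, aeval (fun i => ((v i : ℝ) : ℂ)) P =
      ((eval v P : ℝ) : ℂ) := by
    intro P
    have := MvPolynomial.aeval_algebraMap_apply (R := ℝ) (A := ℝ) (B := ℂ) v P
    rw [MvPolynomial.aeval_eq_eval] at this
    exact this
  refine hns (fun i => ((v i : ℝ) : ℂ)) ?_ ⟨?_, ?_⟩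
  · intro h
    have c0 : Real.cos θ = 0 := by
      have h3 : ((Real.cos θ : ℝ) : ℂ) = 0 := congrFun h 0
      exact Complex.ofReal_eq_zero.1 h3
    have c1 : Real.sin θ = 0 := by
      have h3 : ((Real.sin θ : ℝ) : ℂ) = 0 := congrFun h 1
      exact Complex.ofReal_eq_zero.1 h3
    rw [c0, c1] at hcs
    norm_num at hcs
  · rw [hae, h0]; rfl
  · intro i
    rw [hae]
    fin_cases i
    · change ((eval v (pderiv 0 F) : ℝ) : ℂ) = 0
      rw [g0]; rfl
    · change ((eval v (pderiv 1 F) : ℝ) : ℂ) = 0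
      rw [g1]; rfl
    · change ((eval v (pderiv 2 F) : ℝ) : ℂ) = 0
      rw [g2]; rfl

/-- the common part of the simplicity statements -/
theorem polar_point (hN : S_NSP) {F : MvPolynomial (Fin 3) ℝ} (hF : F.IsHomogeneous 8)
    (hns : Nonsing F) {m : ℕ} (hm : 0 < m) {p : Polynomial ℝ} {B : ℝ → ℂ}
    (hP : ∀ θ τ : ℝ, eval ![Real.cos θ, Real.sin θ, τ] F =
      p.eval (τ ^ 2) + (Complex.exp (m * θ * Complex.I) * B τ).re) (τ : ℝ)
    (hτ : ‖B τ‖ = |p.eval (τ ^ 2)|) : ∃ E : ℂ, E * B τ = -((p.eval (τ ^ 2) : ℝ) : ℂ) ∧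
      ¬ HasDerivAt (fun x : ℝ => p.eval (x ^ 2) + (E * B x).re) 0 τ := by
  have hm' : (m : ℂ) ≠ 0 := by exact_mod_cast hm.ne'
  obtain ⟨θ, hθ⟩ : ∃ θ : ℝ, Complex.exp (m * θ * Complex.I) * B τ =
      -((p.eval (τ ^ 2) : ℝ) : ℂ) := by
    by_cases hB : B τ = 0
    · refine ⟨0, ?_⟩
      rw [hB, norm_zero] at hτ
      have hp : p.eval (τ ^ 2) = 0 := abs_eq_zero.1 hτ.symm
      rw [hB, hp]
      simp
    · set w : ℂ := -((p.eval (τ ^ 2) : ℝ) : ℂ) / B τ with hw
      have hw1 : ‖w‖ = 1 := by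
        rw [hw, norm_div, norm_neg, Complex.norm_real, Real.norm_eq_abs, ← hτ]
        exact div_self (norm_ne_zero_iff.2 hB)
      refine ⟨w.arg / m, ?_⟩
      have h1 : (m : ℂ) * ((w.arg / m : ℝ) : ℂ) * Complex.I = w.arg * Complex.I := by
        push_cast
        field_simp
      rw [h1]
      have h2 := Complex.norm_mul_exp_arg_mul_I w
      rw [hw1, Complex.ofReal_one, one_mul] at h2
      rw [h2, hw, div_mul_cancel₀ _ hB]
  refine ⟨Complex.exp (m * θ * Complex.I), hθ, fun hd => ?_⟩
  refine hN F hF hns θ τ ?_ ?_ ?_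
  · rw [hP, hθ]
    simp
  · have h1 : HasDerivAt (fun z : ℂ => Complex.exp (m * z * Complex.I) * B τ)
        (Complex.exp (m * θ * Complex.I) * (m * 1 * Complex.I) * B τ) (θ : ℂ) :=
      ((((hasDerivAt_id (θ : ℂ)).const_mul (m : ℂ)).mul_const Complex.I).cexp).mul_const (B τ)
    have h2 := h1.real_of_complex
    have h3 : (Complex.exp (m * θ * Complex.I) * (m * 1 * Complex.I) * B τ).re = 0 := by
      have h4 : Complex.exp (m * θ * Complex.I) * (m * 1 * Complex.I) * B τ =
          (m * 1 * Complex.I) * (Complex.exp (m * θ * Complex.I) * B τ) := by ring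
      rw [h4, hθ]
      simp
    rw [h3] at h2
    have h5 := h2.const_add (p.eval (τ ^ 2))
    refine h5.congr_of_eventuallyEq ?_
    filter_upwards with x
    rw [hP]
  · refine hd.congr_of_eventuallyEq ?_
    filter_upwards with x
    rw [hP]

theorem poly_deriv (p : Polynomial ℝ) (τ : ℝ) :
    HasDerivAt (fun x : ℝ => p.eval (x ^ 2)) (p.derivative.eval (τ ^ 2) * (2 * τ)) τ := by
  have h1 := p.hasDerivAt (τ ^ 2)
  have h2 : HasDerivAt (fun x : ℝ => x ^ 2) (2 * τ) τ := by
    have := hasDerivAt_pow 2 τ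
    simpa using this
  exact HasDerivAt.comp (h₂ := fun x => Polynomial.eval x p) (h := fun x : ℝ => x ^ 2) τ h1 h2

theorem s_SIM8 (hN : S_NSP) : S_SIM8 := by
  intro F p β hF hns hβ hP D hD
  have hD1 : ∀ t, D.eval t = ‖β‖ ^ 2 - p.eval t ^ 2 := by
    intro t
    rw [hD]
    simp
  have hD2 : ∀ t, D.derivative.eval t = -(2 * p.eval t * p.derivative.eval t) := by
    intro t
    rw [hD]
    simp [Polynomial.derivative_pow]
  have hnorm : ∀ τ : ℝ, D.eval (τ ^ 2) = 0 → ‖β‖ = |p.eval (τ ^ 2)| := by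
    intro τ h
    rw [hD1, sub_eq_zero] at h
    rw [← abs_of_nonneg (norm_nonneg β)]
    exact sq_eq_sq_iff_abs_eq_abs _ _ |>.1 h
  have key : ∀ τ : ℝ, D.eval (τ ^ 2) = 0 → p.derivative.eval (τ ^ 2) * (2 * τ) ≠ 0 := by
    intro τ h h0
    obtain ⟨E, _, hE2⟩ := polar_point hN hF hns (m := 8) (by norm_num) hP.2.2.2 τ (hnorm τ h)
    apply hE2
    have h1 := (poly_deriv p τ).add_const ((E * β).re)
    rw [h0] at h1
    exact h1
  constructor
  · intro h
    refine key 0 ?_ (by ring)
    rw [zero_pow two_ne_zero]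
    exact h
  · intro t ht h h'
    have hs : Real.sqrt t ^ 2 = t := Real.sq_sqrt ht.le
    have hp : p.eval t ≠ 0 := by
      intro hp
      rw [hD1, hp] at h
      have : ‖β‖ ^ 2 = 0 := by linarith
      exact hβ (norm_eq_zero.1 (pow_eq_zero_iff two_ne_zero |>.1 this))
    have hp' : p.derivative.eval t = 0 := by
      rw [hD2, neg_eq_zero, mul_eq_zero] at h'
      rcases h' with h' | h'
      · exact absurd (by linarith) hp
      · exact h'
    refine key (Real.sqrt t) (by rw [hs]; exact h) ?_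
    rw [hs, hp', zero_mul]

theorem s_SIM6 (hN : S_NSP) : S_SIM6 := by
  intro F p α β hF hns hβ hP hz D hD
  have hnB : ∀ t : ℝ, ‖β + α * (t : ℂ)‖ ^ 2 = ‖β‖ ^ 2 + 2 * ((starRingEnd ℂ) β * α).re * t +
      ‖α‖ ^ 2 * t ^ 2 := by
    intro t
    rw [← Complex.normSq_eq_norm_sq, ← Complex.normSq_eq_norm_sq, ← Complex.normSq_eq_norm_sq]
    simp [Complex.normSq_apply]
    ring
  have hD1 : ∀ t, D.eval t = ‖β + α * (t : ℂ)‖ ^ 2 - p.eval t ^ 2 := by
    intro t
    rw [hD, hnB]
    simp
  have hD2 : ∀ t, D.derivative.eval t = 2 * (((starRingEnd ℂ) (β + α * (t : ℂ)) * α).re) -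
      2 * p.eval t * p.derivative.eval t := by
    intro t
    rw [hD]
    simp only [Polynomial.derivative_sub, Polynomial.derivative_add, Polynomial.derivative_C,
      Polynomial.derivative_C_mul, Polynomial.derivative_X, Polynomial.derivative_pow, Polynomial.eval_sub, Polynomial.eval_add, Polynomial.eval_mul,
      Polynomial.eval_C, Polynomial.eval_X, Polynomial.eval_pow, Polynomial.eval_one,
      Polynomial.eval_zero, Nat.cast_ofNat]
    rw [← Complex.normSq_eq_norm_sq]
    simp [Complex.normSq_apply]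
    ring
  have hnorm : ∀ τ : ℝ, D.eval (τ ^ 2) = 0 → ‖β + α * (τ : ℂ) ^ 2‖ = |p.eval (τ ^ 2)| := by
    intro τ h
    rw [hD1, sub_eq_zero] at h
    have e : ((τ ^ 2 : ℝ) : ℂ) = (τ : ℂ) ^ 2 := by push_cast; ring
    rw [e] at h
    rw [← abs_of_nonneg (norm_nonneg _)]
    exact sq_eq_sq_iff_abs_eq_abs _ _ |>.1 h
  have key : ∀ τ : ℝ, D.eval (τ ^ 2) = 0 → p.eval (τ ^ 2) ≠ 0 →
      (τ = 0 ∨ D.derivative.eval (τ ^ 2) = 0) → False := by
    intro τ h hp0 h0
    obtain ⟨E, hE1, hE2⟩ := polar_point hN hF hns (m := 6) (by norm_num) hP.2.2.2 τ (hnorm τ h)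
    apply hE2
    have e1 : ∀ x : ℝ, (E * (β + α * (x : ℂ) ^ 2)).re = (E * β).re + (E * α).re * x ^ 2 := by
      intro x
      have e2 : E * (β + α * (x : ℂ) ^ 2) = E * β + (E * α) * ((x ^ 2 : ℝ) : ℂ) := by
        push_cast; ring
      rw [e2, Complex.add_re, Complex.re_mul_ofReal]
    have h2 : HasDerivAt (fun x : ℝ => (E * β).re + (E * α).re * x ^ 2)
        ((E * α).re * (2 * τ)) τ := by
      have h3 : HasDerivAt (fun x : ℝ => x ^ 2) (2 * τ) τ := by
        have := hasDerivAt_pow 2 τ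
        simpa using this
      exact (h3.const_mul _).const_add _
    have h4 := (poly_deriv p τ).add h2
    have h5 : p.derivative.eval (τ ^ 2) * (2 * τ) + (E * α).re * (2 * τ) = 0 := by
      rcases h0 with h0 | h0
      · rw [h0]; ring
      · rw [hD2] at h0
        have e : ((τ ^ 2 : ℝ) : ℂ) = (τ : ℂ) ^ 2 := by push_cast; ring
        rw [e] at h0
        set Bt : ℂ := β + α * (τ : ℂ) ^ 2 with hBt
        set P : ℝ := p.eval (τ ^ 2) with hPd
        have hB2 : Bt * (starRingEnd ℂ) Bt = ((P ^ 2 : ℝ) : ℂ) := by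
          rw [Complex.mul_conj, Complex.normSq_eq_norm_sq, hnorm τ h, sq_abs]
        have hPc : (P : ℂ) ≠ 0 := by exact_mod_cast hp0
        have h6 : E * (P : ℂ) = -(starRingEnd ℂ) Bt := by
          apply mul_right_cancel₀ hPc
          have h7 : E * (Bt * (starRingEnd ℂ) Bt) = -(P : ℂ) * (starRingEnd ℂ) Bt := by
            rw [← mul_assoc, hE1]
          rw [hB2] at h7
          push_cast at h7
          linear_combination h7
        have h8 : (E * α).re * P = -((starRingEnd ℂ) Bt * α).re := by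
          rw [← Complex.re_mul_ofReal, ← Complex.neg_re]
          congr 1
          linear_combination α * h6
        have h9 : (p.derivative.eval (τ ^ 2) + (E * α).re) * P = 0 := by
          rw [add_mul, h8]
          linarith
        rcases mul_eq_zero.1 h9 with h10 | h10
        · rw [← add_mul, h10, zero_mul]
        · exact absurd h10 hp0
    rw [h5] at h4
    refine h4.congr_of_eventuallyEq ?_
    filter_upwards with x
    rw [e1]
    rfl
  constructor
  · intro h
    have hp : p.eval 0 ≠ 0 := by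
      intro hp
      rw [hD1, hp] at h
      simp at h
      exact hβ h
    refine key 0 ?_ ?_ (Or.inl rfl)
    · rw [zero_pow two_ne_zero]; exact h
    · rw [zero_pow two_ne_zero]; exact hp
  · intro t ht h h'
    have hs : Real.sqrt t ^ 2 = t := Real.sq_sqrt ht.le
    have hp : p.eval t ≠ 0 := by
      intro hp
      have h1 := hz t ht hp
      rw [hD1, hp] at h
      have h2 : ‖β + α * (t : ℂ)‖ ^ 2 = 0 := by linarith
      exact h1 (norm_eq_zero.1 (pow_eq_zero_iff two_ne_zero |>.1 h2))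
    exact key (Real.sqrt t) (by rw [hs]; exact h) (by rw [hs]; exact hp)
      (Or.inr (by rw [hs]; exact h'))

end Pool.Agent.L7h60.OC
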